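import Pool.Agent.Helper84.NestedC4Lower

/-!
# The extremal function of the edge-ordered 4-cycle `C_4^{1243}` is of order `n^{3/2}`
-/

set_option autoImplicit false

open Asymptotics Filter

namespace Pool.Agent.Results.MP_f381ae_co.ThetaBound

open Pool.Agent.Helper84 Pool.Agent.Helper84.NestedC4

/-- `ex'_<(C_4^{1243}, n) = Θ(n^{3/2})`. -/
theorem result :
    (fun n : ℕ => (exOrd C4_1243 n : ℝ)) =Θ[atTop] (fun n : ℕ => (n : ℝ) ^ (3 / 2 : ℝ)) := by
  constructor
  · refine IsBigO.of_bound 200000 (Eventually.of_forall fun n => ?_)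
    rw [Real.norm_of_nonneg (Nat.cast_nonneg _), Real.norm_of_nonneg (by positivity)]
    exact exOrd_le n
  · refine IsBigO.of_bound 32 ?_
    filter_upwards [eventually_ge_atTop 8] with n hn
    rw [Real.norm_of_nonneg (Nat.cast_nonneg _), Real.norm_of_nonneg (by positivity)]
    have := exOrd_lower hn
    linarith

end Pool.Agent.Results.MP_f381ae_co.ThetaBound
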